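import Pool.Agent.T2H41.CL.Fin

/-!
# The maximal singular locus of closures of orbits of `GL_p × GL_q`: a counterexample

Let `K = GL_p × GL_q` act on the variety `G / B` of the complete flags in `ℂ^n`, `n = p + q`, and let `Y_γ`
be the closure of the orbit of the `(p, q)`-clan `γ`. Q1 asks whether for all irreducible components `Y_α`
of the singular locus of `Y_γ` (i) every arc of `α` matches adjacent vertices, and (ii) `α` has at most
as many arcs as `γ`. We show that the answer is no: let `p = 4`, `q = 3`,

  `γ = 1 + - 1 2 + 2`,  `α = + + - - 2 + 2`.

Then `Y_α` is an irreducible component of the singular locus of `Y_γ`, and the arc of `α` joins the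
vertices 5 and 7 (4 and 6, if the positions are numbered from 0).

The reason: if `γ` is the concatenation of the clans `γ'` and `γ''`, of lengths `m` and `n - m`, then the
`m`-th space `F_m` of a flag in `Y_γ` is the sum of its intersections with the two summands of `ℂ^n`, and
`Y_γ` is a bundle over the product of two Grassmannians (the position of `F_m`) with the fibre
`Y_γ' × Y_γ''`. So the components of its singular locus are given by the concatenations of the components
for `γ'` with `γ''`, and of `γ'` with the components for `γ''`. Here the singular locus of `Y_(1+-1)` is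
`Y_(+ + - -)`, and `Y_(2+2)` is the whole variety of flags in `ℂ^3`.

The proof is done with the preimages in `G`, which are sets of invertible matrices of size 7 stable under
the right multiplication by `B`. Near the matrix of `α` the preimage of `Y_γ` is given by seven
equations (minors), the differentials of which are independent exactly outside of the preimage of
`Y_α`; the preimage of `Y_γ` is singular at the matrix of `α`, because it has codimension seven and
contains lines in 43 coordinate directions.
-/

set_option autoImplicit false

namespace Pool.Agent.Results.MP_25f57f_ag.ConcatenatedClans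

open Pool.Agent.T2H41.CL

/-- The number of the arcs of `γ`. -/
def numArcs {n : ℕ} (γ : Str n) : ℕ :=
  (Finset.univ.filter fun s : Fin n × Fin n => Arc γ s.1 s.2).card

/-- The statement of Q1: for all `(p, q)`-clans `γ`, `α`, if the closure of the orbit of `α` is an
irreducible component of the singular locus of the closure of the orbit of `γ`, then (i) all arcs of `α`
match adjacent vertices and (ii) the number of the arcs of `α` is at most the number of the arcs of
`γ`. -/
def Q1 : Prop :=
  ∀ (p q : ℕ) (γ α : Str (p + q)), IsClan p q γ → IsClan p q α →
    IsComponent (Y p α) (SingLocus p γ) →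
      (∀ i j, Arc α i j → (j : ℕ) = i + 1) ∧ numArcs α ≤ numArcs γ

/-- The clan `1 + - 1 2 + 2`. -/
def γ₀ : Str (4 + 3) := ![.num 1, .plus, .minus, .num 1, .num 2, .plus, .num 2]

/-- The clan `+ + - - 2 + 2`. -/
def α₀ : Str (4 + 3) := ![.plus, .plus, .minus, .minus, .num 2, .plus, .num 2]

/-- **Disproof of Q1.** The closure of the orbit of `α₀` is an irreducible component of the singular
locus of the closure of the orbit of `γ₀`, and `α₀` has an arc which does not match adjacent vertices. So
the answer to Q1 is no. -/
theorem result : (IsClan 4 3 γ₀ ∧ IsClan 4 3 α₀ ∧ IsComponent (Y 4 α₀) (SingLocus 4 γ₀) ∧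
    Arc α₀ 4 6) ∧ ¬ Q1 := by
  have h : IsClan 4 3 γ₀ ∧ IsClan 4 3 α₀ ∧ IsComponent (Y 4 α₀) (SingLocus 4 γ₀) ∧ Arc α₀ 4 6 :=
    ⟨T_CLN.1, T_CLN.2.1, fFIN, T_CLN.2.2⟩
  refine ⟨h, fun hQ => ?_⟩
  have h1 := (hQ 4 3 γ₀ α₀ h.1 h.2.1 h.2.2.1).1 4 6 h.2.2.2
  exact absurd h1 (by decide)

end Pool.Agent.Results.MP_25f57f_ag.ConcatenatedClans
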